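import Mathlib

set_option autoImplicit false

namespace Pool.Agent.P.MP_0340c4_al

/-- A possibly not everywhere defined function of arity `n + 1` on `A`, for some `n`:
the value `none` means that the argument is outside the domain. -/
abbrev PF (A : Type) : Type := Σ n : ℕ, ((Fin (n + 1) → A) → Option A)

/-- The everywhere defined functions. -/
def Total (A : Type) : Set (PF A) := {f | ∀ x, f.2 x ≠ none}

open Classical in
/-- The composition `f (g 1, ..., g n)`: defined at `x` when every `g i` is defined at `x` and `f`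
is defined at the tuple of values. -/
noncomputable def comp {A : Type} {n m : ℕ} (f : (Fin (n + 1) → A) → Option A)
    (g : Fin (n + 1) → (Fin (m + 1) → A) → Option A) : (Fin (m + 1) → A) → Option A :=
  fun x => if h : ∀ i, (g i x).isSome then f (fun i => (g i x).get (h i)) else none

/-- `X` contains all total projections and is closed under composition. -/
def IsPClone {A : Type} (X : Set (PF A)) : Prop :=
  (∀ (n : ℕ) (i : Fin (n + 1)), (⟨n, fun x => some (x i)⟩ : PF A) ∈ X) ∧
  ∀ (n m : ℕ) (f : (Fin (n + 1) → A) → Option A)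
    (g : Fin (n + 1) → (Fin (m + 1) → A) → Option A),
    (⟨n, f⟩ : PF A) ∈ X → (∀ i, (⟨m, g i⟩ : PF A) ∈ X) → (⟨m, comp f g⟩ : PF A) ∈ X

/-- `X` is closed under restriction of the domain. -/
def IsStrong {A : Type} (X : Set (PF A)) : Prop :=
  ∀ (n : ℕ) (f g : (Fin (n + 1) → A) → Option A),
    (⟨n, g⟩ : PF A) ∈ X → (∀ x a, f x = some a → g x = some a) → (⟨n, f⟩ : PF A) ∈ X

/-- The interval `I_D(C)`. -/
def ID {A : Type} (C : Set (PF A)) : Set (Set (PF A)) := {X | IsPClone X ∧ X ∩ Total A = C}

/-- The interval `I_Str(C)`. -/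
def IStr {A : Type} (C : Set (PF A)) : Set (Set (PF A)) :=
  {X | IsPClone X ∧ IsStrong X ∧ X ∩ Total A = C}

end Pool.Agent.P.MP_0340c4_al
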