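import Mathlib

set_option autoImplicit false

namespace Pool.Agent.P.MP_0340c4_al

/-- upward closure of a predicate -/
def up {α : Type} (le : α → α → Prop) (P : α → Prop) : α → Prop := fun x => ∃ y, P y ∧ le y x

/-- the pair `p ≤ q` is within `r` steps of the predicate -/
def cc {α : Type} : ℕ → (α → α → Prop) → (α → Prop) → α → α → Prop
  | 0, _, P, _, q => P q
  | 1, _, P, p, _ => P p
  | r + 2, le, P, p, q => cc r (fun a b => le b a) (up le P) q p

/-- zigzag levels -/
def lev {α : Type} : ℕ → (α → α → Prop) → (α → Prop) → α → Prop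
  | 0, _, P => P
  | k + 1, le, P => lev k (fun a b => le b a) (up le P)

structure Good {α : Type} (le : α → α → Prop) (P : α → Prop) : Prop where
  tr : ∀ a b c, le a b → le b c → le a c
  rl : ∀ a b, le a b → le a a
  rr : ∀ a b, le a b → le b b
  dn : ∀ a b, le a b → P b → P a
  rp : ∀ a, P a → le a a

lemma Good.flip {α : Type} {le : α → α → Prop} {P : α → Prop} (h : Good le P) :
    Good (fun a b => le b a) (up le P) :=
  ⟨fun a b c x y => h.tr c b a y x, fun a b x => h.rr b a x, fun a b x => h.rl b a x,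
    fun _ _ x ⟨y, h1, h2⟩ => ⟨y, h1, h.tr _ _ _ h2 x⟩, fun _ ⟨_, _, h2⟩ => h.rr _ _ h2⟩

lemma hom_fin {α β : Type} : ∀ (r : ℕ) (le : α → α → Prop) (P : α → Prop) (le' : β → β → Prop)
    (Q : β → Prop) (p q : α) (u v : β), Good le P → Good le' Q → le p q → ¬ le q p → le' u v →
    cc r le' Q u v → (∀ r' < r, ¬ cc r' le P p q) →
    ∃ (h : α → β) (s : β), Q s ∧ (∀ x y, le x y → le' (h x) (h y)) ∧ (∀ x, P x → le' (h x) s) ∧
      h p = u ∧ h q = v
  | 0, le, P, le', Q, p, q, u, v, G, G', h1, h2, h3, hc, _ => by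
    classical
    refine ⟨fun x => if le x p then u else v, v, hc, fun x y hxy => ?_, fun x _ => ?_,
      if_pos (G.rl _ _ h1), if_neg h2⟩
    · by_cases a : le y p
      · simp only [a, G.tr _ _ _ hxy a, if_true]; exact G'.rl _ _ h3
      · simp only [a, if_false]; split_ifs; exacts [h3, G'.rr _ _ h3]
    · beta_reduce; split_ifs; exacts [h3, G'.rr _ _ h3]
  | 1, le, P, le', Q, p, q, u, v, G, G', h1, h2, h3, hc, hn => by
    classical
    have hq : ¬ P q := hn 0 one_pos
    refine ⟨fun x => if P x ∨ le x p then u else v, u, hc, fun x y hxy => ?_, fun x hx => ?_,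
      if_pos (Or.inr (G.rl _ _ h1)), if_neg (not_or.2 ⟨hq, h2⟩)⟩
    · by_cases a : P y ∨ le y p
      · have b : P x ∨ le x p := a.imp (G.dn _ _ hxy) (G.tr _ _ _ hxy)
        simp only [a, b, if_true]; exact G'.rl _ _ h3
      · simp only [a, if_false]; split_ifs; exacts [h3, G'.rr _ _ h3]
    · simp only [hx, true_or, if_true]; exact G'.rl _ _ h3
  | r + 2, le, P, le', Q, p, q, u, v, G, G', h1, h2, h3, hc, hn => by
    classical
    have hq : ¬ P q := hn 0 (by omega)
    have hp : ¬ P p := hn 1 (by omega)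
    obtain ⟨h, s, ⟨l, l1, l2⟩, m1, m2, m3, m4⟩ := hom_fin r (fun a b => le b a) (up le P)
      (fun a b => le' b a) (up le' Q) q p v u G.flip G'.flip h1 h2 h3 hc
      fun r' hr' => hn (r' + 2) (by omega)
    refine ⟨fun x => if P x then l else h x, l, l1, fun x y hxy => ?_, fun x hx => ?_,
      (if_neg hp).trans m4, (if_neg hq).trans m3⟩
    · by_cases a : P y
      · simp only [a, G.dn _ _ hxy a, if_true]; exact G'.rp _ l1
      · simp only [a, if_false]
        split_ifs with b
        · exact G'.tr _ _ _ l2 (m2 y ⟨x, b, hxy⟩)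
        · exact m1 y x hxy
    · simp only [hx, if_true]; exact G'.rp _ l1

lemma lev_step {α : Type} : ∀ (k : ℕ) (le : α → α → Prop) (P : α → Prop) (x y : α), Good le P →
    lev k le P x → le x y ∨ le y x → lev (k + 1) le P y
  | 0, _, _, x, y, G, h, hxy => hxy.elim (fun a => ⟨x, h, a⟩)
      fun a => ⟨y, G.dn _ _ a h, G.rl _ _ a⟩
  | k + 1, le, P, x, y, G, h, hxy => lev_step k (fun a b => le b a) (up le P) x y G.flip h hxy.symm

lemma cc_of_lev {α : Type} : ∀ (k : ℕ) (le : α → α → Prop) (P : α → Prop) (p q : α),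
    lev k le P p → lev k le P q → ∃ r, cc r le P p q
  | 0, _, _, _, _, _, h => ⟨0, h⟩
  | k + 1, le, P, p, q, h1, h2 =>
    (cc_of_lev k (fun a b => le b a) (up le P) q p h2 h1).elim fun r hr => ⟨r + 2, hr⟩

open Classical in
/-- rank of a pair -/
noncomputable def rk {α : Type} (le : α → α → Prop) (P : α → Prop) (p q : α) :
    WithTop (WithTop ℕ) :=
  if h : ∃ r, cc r le P p q then ((Nat.find h : WithTop ℕ) : WithTop (WithTop ℕ))
  else if ∃ x, P x then ((⊤ : WithTop ℕ) : WithTop (WithTop ℕ)) else ⊤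

theorem hom_of_le {α β : Type} {le : α → α → Prop} {P : α → Prop} {le' : β → β → Prop}
    {Q : β → Prop} {p q : α} {u v : β} (G : Good le P) (G' : Good le' Q) (h1 : le p q)
    (h2 : ¬ le q p) (h3 : le' u v) (hr : rk le' Q u v ≤ rk le P p q) :
    ∃ h : α → β, (∀ x y, le x y → le' (h x) (h y)) ∧ (∀ x, P x → Q (h x)) ∧ h p = u ∧ h q = v := by
  classical
  by_cases a : ∃ r, cc r le' Q u v
  · obtain ⟨h, s, s1, s2, s3, s4⟩ := hom_fin (Nat.find a) le P le' Q p q u v G G' h1 h2 h3
      (Nat.find_spec a) (by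
        intro r' hr' hc
        have b : ∃ r, cc r le P p q := ⟨r', hc⟩
        simp only [rk, dif_pos a, dif_pos b, WithTop.coe_le_coe] at hr
        have : Nat.find a ≤ Nat.find b := by exact_mod_cast hr
        have := Nat.find_min' b hc
        omega)
    exact ⟨h, s2, fun x hx => G'.dn _ _ (s3 x hx) s1, s4⟩
  have b : ¬ ∃ r, cc r le P p q := by
    intro b
    simp only [rk, dif_neg a, dif_pos b] at hr
    split_ifs at hr
    · rw [WithTop.coe_le_coe] at hr
      exact WithTop.not_top_le_coe _ hr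
    · exact WithTop.not_top_le_coe _ hr
  have hl : (∃ x, P x) → ∃ l, Q l := by
    intro c
    by_contra d
    simp only [rk, dif_neg a, dif_neg b, if_pos c, if_neg d] at hr
    exact WithTop.not_top_le_coe _ hr
  obtain ⟨l, hl⟩ : ∃ l, (∃ x, P x) → Q l := by
    by_cases c : ∃ x, P x
    · exact (hl c).imp fun _ h _ => h
    · exact ⟨u, fun h => absurd h c⟩
  have hne : ∀ (k : ℕ) (le : α → α → Prop) (P : α → Prop) x, lev k le P x → ∃ x, P x := by
    intro k
    induction k with
    | zero => exact fun _ _ x h => ⟨x, h⟩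
    | succ k ih => exact fun le P x h => (ih _ _ x h).elim fun _ ⟨y, hy, _⟩ => ⟨y, hy⟩
  have zp : ¬ ∃ k, lev k le P p := fun ⟨k, hk⟩ => b (cc_of_lev (k + 1) le P p q
    (lev_step k le P p p G hk (Or.inl (G.rl _ _ h1))) (lev_step k le P p q G hk (Or.inl h1)))
  have zq : ¬ ∃ k, lev k le P q := fun ⟨k, hk⟩ => zp ⟨k + 1, lev_step k le P q p G hk (Or.inr h1)⟩
  refine ⟨fun x => if ∃ k, lev k le P x then l else if le x p then u else v, fun x y hxy => ?_,
    fun x hx => ?_, ?_, ?_⟩
  · by_cases c : ∃ k, lev k le P x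
    · have d : ∃ k, lev k le P y := c.elim fun k hk => ⟨k + 1, lev_step k le P x y G hk (Or.inl hxy)⟩
      simp only [c, d, if_true]
      exact G'.rp _ (hl (c.elim fun k hk => hne k le P x hk))
    · have d : ¬ ∃ k, lev k le P y :=
        fun ⟨k, hk⟩ => c ⟨k + 1, lev_step k le P y x G hk (Or.inr hxy)⟩
      simp only [c, d, if_false]
      by_cases e : le y p
      · simp only [e, G.tr _ _ _ hxy e, if_true]; exact G'.rl _ _ h3
      · simp only [e, if_false]; split_ifs; exacts [h3, G'.rr _ _ h3]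
  · have c : ∃ k, lev k le P x := ⟨0, hx⟩
    simp only [c, if_true]
    exact hl ⟨x, hx⟩
  · simp only [zp, if_false, G.rl _ _ h1, if_true]
  · simp only [zq, if_false, h2]

end Pool.Agent.P.MP_0340c4_al
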