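import Pool.Agent.P.MP_0340c4_al.Defs
import Pool.Agent.P.MP_0340c4_al.Hom

set_option autoImplicit false

namespace Pool.Agent.P.MP_0340c4_al

variable {A : Type} [LinearOrder A] [OrderBot A] [Fintype A]

/-- monotone total functions preserving the initial segment below `i` -/
def Cl (i : A) : Set (PF A) := {f | ∃ F : (Fin (f.1 + 1) → A) → A, Monotone F ∧
  (∀ x, (∀ j, x j ≤ i) → F x ≤ i) ∧ f.2 = fun x => some (F x)}

open Classical in
noncomputable def rs {m : ℕ} (T : Set (Fin (m + 1) → A)) (G : (Fin (m + 1) → A) → A) :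
    (Fin (m + 1) → A) → Option A := fun x => if x ∈ T then some (G x) else none

lemma comp_some {B : Type} {n m : ℕ} {f : (Fin (n + 1) → B) → Option B}
    {g : Fin (n + 1) → (Fin (m + 1) → B) → Option B} {x : Fin (m + 1) → B} {y : Fin (n + 1) → B}
    (h : ∀ j, g j x = some (y j)) : comp f g x = f y := by
  have a : ∀ j, (g j x).isSome := fun j => by rw [h j]; rfl
  simp only [comp, dif_pos a]
  congr 1
  funext j
  simp [h j]

lemma of_comp_some {B : Type} {n m : ℕ} {f : (Fin (n + 1) → B) → Option B}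
    {g : Fin (n + 1) → (Fin (m + 1) → B) → Option B} {x : Fin (m + 1) → B} {a : B}
    (h : comp f g x = some a) : ∃ y, (∀ j, g j x = some (y j)) ∧ f y = some a := by
  unfold comp at h
  split_ifs at h with b
  exact ⟨_, fun j => (Option.some_get (b j)).symm, h⟩

section
variable {i : A} {X : Set (PF A)} (hX : X ∈ IStr (Cl i))
include hX

lemma in_C {m : ℕ} {T : Set (Fin (m + 1) → A)} {G : (Fin (m + 1) → A) → A}
    (h1 : ∀ x ∈ T, ∀ y ∈ T, x ≤ y → G x ≤ G y) (h2 : ∀ x ∈ T, (∀ j, x j ≤ i) → G x ≤ i) :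
    (⟨m, rs T G⟩ : PF A) ∈ X := by
  classical
  let H : (Fin (m + 1) → A) → A := fun x => (Finset.univ.filter fun y => y ∈ T ∧ y ≤ x).sup G
  have : (⟨m, fun x => some (H x)⟩ : PF A) ∈ Cl i := by
    refine ⟨H, fun x y hxy => Finset.sup_mono fun z hz => ?_, fun x hx => Finset.sup_le fun z hz => ?_,
      rfl⟩
    · simp only [Finset.mem_filter, Finset.mem_univ, true_and] at hz ⊢
      exact ⟨hz.1, hz.2.trans hxy⟩
    · simp only [Finset.mem_filter, Finset.mem_univ, true_and] at hz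
      exact h2 z hz.1 fun j => (hz.2 j).trans (hx j)
  rw [← hX.2.2] at this
  refine hX.2.1 m _ _ this.1 fun x a h => ?_
  unfold rs at h
  split_ifs at h with hx
  rw [← h]
  congr 1
  refine le_antisymm (Finset.sup_le fun z hz => ?_) (Finset.le_sup (by simp [hx]))
  simp only [Finset.mem_filter, Finset.mem_univ, true_and] at hz
  exact h1 z hz.1 x hx hz.2

omit [Fintype A] [OrderBot A] in
lemma in_comp {n m : ℕ} {f : (Fin (n + 1) → A) → Option A} (hf : (⟨n, f⟩ : PF A) ∈ X)
    {T : Set (Fin (m + 1) → A)} {G : Fin (n + 1) → (Fin (m + 1) → A) → A}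
    (hG : ∀ j, (⟨m, rs T (G j)⟩ : PF A) ∈ X) {H : (Fin (m + 1) → A) → A}
    (h : ∀ x ∈ T, f (fun j => G j x) = some (H x)) : (⟨m, rs T H⟩ : PF A) ∈ X := by
  refine hX.2.1 m _ _ (hX.1.2 n m f _ hf hG) fun x a e => ?_
  unfold rs at e
  split_ifs at e with hx
  rw [comp_some (y := fun j => G j x) fun j => by simp [rs, hx], h x hx, e]

omit [Fintype A] [OrderBot A] in
lemma in_bin {m : ℕ} {T : Set (Fin (m + 1) → A)} {G1 G2 : (Fin (m + 1) → A) → A}
    (h1 : (⟨m, rs T G1⟩ : PF A) ∈ X) (h2 : (⟨m, rs T G2⟩ : PF A) ∈ X) (ψ : A → A → A)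
    (m1 : ∀ a b c d, a ≤ c → b ≤ d → ψ a b ≤ ψ c d) (m2 : ∀ a b, a ≤ i → b ≤ i → ψ a b ≤ i) :
    (⟨m, rs T fun x => ψ (G1 x) (G2 x)⟩ : PF A) ∈ X := by
  have : (⟨1, fun y => some (ψ (y 0) (y 1))⟩ : PF A) ∈ Cl i :=
    ⟨fun y => ψ (y 0) (y 1), fun x y h => m1 _ _ _ _ (h 0) (h 1), fun x h => m2 _ _ (h 0) (h 1), rfl⟩
  rw [← hX.2.2] at this
  exact in_comp hX this.1 (G := ![G1, G2]) (fun j => by fin_cases j <;> assumption) fun x _ => rfl

lemma pres_L {n : ℕ} {f : (Fin (n + 1) → A) → Option A} (hf : (⟨n, f⟩ : PF A) ∈ X)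
    {x : Fin (n + 1) → A} (hx : ∀ j, x j ≤ i) {a : A} (h : f x = some a) : a ≤ i := by
  have a1 := in_comp hX hf (m := 0) (T := Set.univ) (G := fun j _ => x j)
    (fun j => in_C hX (fun _ _ _ _ _ => le_rfl) fun _ _ _ => hx j) (H := fun _ => a) fun _ _ => h
  have a2 : (⟨0, rs Set.univ fun _ => a⟩ : PF A) ∈ Cl i := by
    rw [← hX.2.2]
    exact ⟨a1, fun y => by simp [rs]⟩
  obtain ⟨F, -, h2, h3⟩ := a2
  have := congrFun h3 fun _ => i
  simp only [rs, Set.mem_univ, if_true, Option.some.injEq] at this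
  rw [this]
  exact h2 _ fun _ => le_rfl

end

/-- order on the domain -/
def dle {n : ℕ} (f : (Fin (n + 1) → A) → Option A) (x y : Fin (n + 1) → A) : Prop :=
  f x ≠ none ∧ f y ≠ none ∧ x ≤ y

/-- low points of the domain -/
def dL (i : A) {n : ℕ} (f : (Fin (n + 1) → A) → Option A) (x : Fin (n + 1) → A) : Prop :=
  f x ≠ none ∧ ∀ j, x j ≤ i

omit [OrderBot A] [Fintype A] in
lemma good_d (i : A) {n : ℕ} (f : (Fin (n + 1) → A) → Option A) : Good (dle f) (dL i f) :=
  ⟨fun _ _ _ x y => ⟨x.1, y.2.1, x.2.2.trans y.2.2⟩, fun _ _ x => ⟨x.1, x.1, le_rfl⟩,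
    fun _ _ x => ⟨x.2.1, x.2.1, le_rfl⟩, fun _ _ x y => ⟨x.1, fun j => (x.2.2 j).trans (y.2 j)⟩,
    fun _ x => ⟨x.1, x.1, le_rfl⟩⟩

/-- ranks above the rank of a pair on which a member of `X` is not monotone -/
def V (i : A) (X : Set (PF A)) : Set (WithTop (WithTop ℕ)) :=
  {w | ∃ (n : ℕ) (f : (Fin (n + 1) → A) → Option A) (u v : Fin (n + 1) → A) (a b : A),
    (⟨n, f⟩ : PF A) ∈ X ∧ u ≤ v ∧ f u = some a ∧ f v = some b ∧ b < a ∧
      rk (dle f) (dL i f) u v ≤ w}

theorem subset_of_V {i : A} {X X' : Set (PF A)} (hX : X ∈ IStr (Cl i)) (hX' : X' ∈ IStr (Cl i))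
    (hV : V i X ⊆ V i X') : X ⊆ X' := by
  classical
  rintro ⟨m, g⟩ hg
  let T : Set (Fin (m + 1) → A) := {x | g x ≠ none}
  let G : (Fin (m + 1) → A) → A := fun x => (g x).getD ⊥
  have hG : ∀ x ∈ T, g x = some (G x) := by
    intro x hx
    obtain ⟨a, ha⟩ := Option.ne_none_iff_exists'.1 hx
    simp [G, ha]
  have pair : ∀ p ∈ T, ∀ q ∈ T, ∃ H, (⟨m, rs T H⟩ : PF A) ∈ X' ∧ H p = G p ∧ H q ≤ G q := by
    intro p hp q hq
    have base : (⟨m, rs T fun x => if p ≤ x then G p else ⊥⟩ : PF A) ∈ X' := by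
      refine in_C hX' (fun x _ y _ hxy => ?_) fun x _ hx => ?_
      · by_cases a : p ≤ x
        · simp [a, a.trans hxy]
        · simp [a]
      · split_ifs with a
        · exact pres_L hX hg (fun j => (a j).trans (hx j)) (hG p hp)
        · exact bot_le
    by_cases hv : p ≤ q ∧ G q < G p
    · obtain ⟨n, f, u, v, a, b, hf, huv, fu, fv, hab, hr⟩ :=
        hV ⟨m, g, p, q, _, _, hg, hv.1, hG p hp, hG q hq, hv.2, le_rfl⟩
      obtain ⟨h, m1, m2, m3, m4⟩ := hom_of_le (good_d i g) (good_d i f) ⟨hp, hq, hv.1⟩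
        (fun c => hv.2.ne (by rw [le_antisymm hv.1 c.2.2])) ⟨by simp [fu], by simp [fv], huv⟩ hr
      have e := in_comp hX' hf (T := T) (G := fun j x => h x j)
        (fun j => in_C hX' (fun x hx y hy hxy => (m1 x y ⟨hx, hy, hxy⟩).2.2 j)
          fun x hx hl => (m2 x ⟨hx, hl⟩).2 j) (H := fun x => (f (h x)).getD ⊥) (fun x hx => by
          obtain ⟨c, hc⟩ := Option.ne_none_iff_exists'.1 (m1 x x ⟨hx, hx, le_rfl⟩).1
          simp only [hc, Option.getD_some])
      refine ⟨_, in_bin hX' e base (fun y z => if a ≤ y then z else ⊥) ?_ ?_, ?_, ?_⟩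
      · intro y z y' z' h1 h2
        by_cases c : a ≤ y
        · simp [c, c.trans h1, h2]
        · simp [c]
      · intro y z _ h2
        split_ifs
        exacts [h2, bot_le]
      · simp [m3, fu]
      · simp [m4, fv, hab.not_ge]
    · refine ⟨_, base, by simp, ?_⟩
      split_ifs with a
      · exact not_lt.1 fun c => hv ⟨a, c⟩
      · exact bot_le
  have row : ∀ p ∈ T, ∀ s : Finset (Fin (m + 1) → A),
      ∃ H, (⟨m, rs T H⟩ : PF A) ∈ X' ∧ H p = G p ∧ ∀ q ∈ s, q ∈ T → H q ≤ G q := by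
    intro p hp s
    induction s using Finset.induction_on with
    | empty => exact (pair p hp p hp).imp fun H h => ⟨h.1, h.2.1, by simp⟩
    | insert q s _ ih =>
      obtain ⟨H, a1, a2, a3⟩ := ih
      by_cases hq : q ∈ T
      · obtain ⟨H', b1, b2, b3⟩ := pair p hp q hq
        refine ⟨_, in_bin hX' a1 b1 min (fun _ _ _ _ => min_le_min) fun _ _ h _ => min_le_of_left_le h,
          by simp [a2, b2], fun y hy hT => ?_⟩
        rcases Finset.mem_insert.1 hy with rfl | hy
        · exact min_le_of_right_le b3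
        · exact min_le_of_left_le (a3 y hy hT)
      · refine ⟨H, a1, a2, fun y hy hT => ?_⟩
        rcases Finset.mem_insert.1 hy with rfl | hy
        · exact absurd hT hq
        · exact a3 y hy hT
  have all : ∀ s : Finset (Fin (m + 1) → A), ∃ H, (⟨m, rs T H⟩ : PF A) ∈ X' ∧
      (∀ q ∈ T, H q ≤ G q) ∧ ∀ p ∈ s, p ∈ T → G p ≤ H p := by
    intro s
    induction s using Finset.induction_on with
    | empty => exact ⟨fun _ => ⊥, in_C hX' (fun _ _ _ _ _ => le_rfl) fun _ _ _ => bot_le,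
        fun _ _ => bot_le, by simp⟩
    | insert p s _ ih =>
      obtain ⟨H, a1, a2, a3⟩ := ih
      by_cases hp : p ∈ T
      · obtain ⟨H', b1, b2, b3⟩ := row p hp Finset.univ
        refine ⟨_, in_bin hX' a1 b1 max (fun _ _ _ _ => max_le_max) fun _ _ => max_le,
          fun q hq => max_le (a2 q hq) (b3 q (Finset.mem_univ _) hq), fun y hy hT => ?_⟩
        rcases Finset.mem_insert.1 hy with rfl | hy
        · exact le_max_of_le_right b2.ge
        · exact le_max_of_le_left (a3 y hy hT)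
      · refine ⟨H, a1, a2, fun y hy hT => ?_⟩
        rcases Finset.mem_insert.1 hy with rfl | hy
        · exact absurd hT hp
        · exact a3 y hy hT
  obtain ⟨H, a1, a2, a3⟩ := all Finset.univ
  refine hX'.2.1 m _ _ a1 fun x a e => ?_
  have hx : x ∈ T := by simp [T, e]
  rw [rs, if_pos hx, ← e, hG x hx, le_antisymm (a2 x hx) (a3 x (Finset.mem_univ _) hx)]

theorem countable_IStr (i : A) : (IStr (Cl i)).Countable := by
  have hc : (insert ∅ (Set.range (Set.Ici : WithTop (WithTop ℕ) → Set _))).Countable :=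
    (Set.countable_range _).insert _
  refine Set.countable_of_injective_of_countable_image (f := V i)
    (fun X hX X' hX' e => Set.Subset.antisymm (subset_of_V hX hX' e.le) (subset_of_V hX' hX e.ge))
    (hc.mono ?_)
  rintro _ ⟨X, -, rfl⟩
  rcases (V i X).eq_empty_or_nonempty with h | h
  · exact Or.inl h
  · refine Or.inr ⟨wellFounded_lt.min _ h, Set.ext fun w => ⟨fun hw => ?_, fun hw => ?_⟩⟩
    · obtain ⟨n, f, u, v, a, b, h1, h2, h3, h4, h5, h6⟩ := wellFounded_lt.min_mem _ h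
      exact ⟨n, f, u, v, a, b, h1, h2, h3, h4, h5, h6.trans hw⟩
    · exact not_lt.1 (wellFounded_lt.not_lt_min _ hw)

/-- zigzag sequences of length `k` starting below `i` -/
def Fence (i : A) (k : ℕ) (w : ℕ → A) : Prop :=
  w 0 ≤ i ∧ ∀ t < k, (t % 2 = 0 → w t ≤ w (t + 1)) ∧ (t % 2 = 1 → w (t + 1) ≤ w t)

/-- functions preserving the zigzag relation -/
def Y (i : A) (k : ℕ) : Set (PF A) := {f | ∀ (z : ℕ → Fin (f.1 + 1) → A) (w : ℕ → A),
  (∀ j, Fence i k fun t => z t j) → (∀ t ≤ k, f.2 (z t) = some (w t)) → Fence i k w}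

omit [Fintype A] in
theorem Y_mem (i : A) {k : ℕ} (hk : 2 ≤ k) : Y i k ∈ IStr (Cl i) := by
  classical
  refine ⟨⟨fun n j z w h1 h2 => ?_, fun n m f g hf hg z w h1 h2 => ?_⟩,
    fun n f g hg h z w h1 h2 => hg z w h1 fun t ht => h _ _ (h2 t ht), ?_⟩
  · simp only [Option.some.injEq] at h2
    obtain ⟨a, b⟩ := h1 j
    refine ⟨h2 0 (by omega) ▸ a, fun t ht => ?_⟩
    rw [← h2 t ht.le, ← h2 (t + 1) ht]
    exact b t ht
  · have : ∀ t, ∃ y : Fin (n + 1) → A, t ≤ k →
        (∀ j, g j (z t) = some (y j)) ∧ f y = some (w t) := by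
      intro t
      by_cases ht : t ≤ k
      · exact (of_comp_some (h2 t ht)).imp fun _ h _ => h
      · exact ⟨fun _ => ⊥, fun h => absurd h ht⟩
    choose y hy using this
    exact hf y w (fun j => hg j z _ h1 fun t ht => (hy t ht).1 j) fun t ht => (hy t ht).2
  · ext ⟨n, f⟩
    constructor
    · rintro ⟨h1, h2⟩
      have hF : ∀ x, f x = some ((f x).getD ⊥) := by
        intro x
        obtain ⟨a, ha⟩ := Option.ne_none_iff_exists'.1 (h2 x)
        simp only at ha
        simp [ha]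
      refine ⟨fun x => (f x).getD ⊥, fun p q hpq => ?_, fun x hx => ?_, funext hF⟩
      · have := h1 (fun t => if t = 0 then ⊥ else if t = 1 then q else p) _ (fun j => by
          refine ⟨bot_le, fun t _ => ⟨fun a => ?_, fun a => ?_⟩⟩
          · by_cases b : t = 0
            · simp [b]
            · have : t ≠ 1 := by omega
              simp [b, this]
          · have b : t ≠ 0 := by omega
            by_cases c : t = 1
            · simp [c, hpq j]
            · simp [b, c]) fun t _ => hF _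
        simpa using (this.2 1 (by omega)).2 rfl
      · exact (h1 (fun _ => x) _ (fun j => ⟨hx j, fun _ _ => ⟨fun _ => le_rfl, fun _ => le_rfl⟩⟩)
          fun t _ => hF _).1
    · rintro ⟨F, h1, h2, h3⟩
      have hf : ∀ x, f x = some (F x) := congrFun h3
      refine ⟨fun z w a b => ?_, fun x => by simp [hf]⟩
      simp only [hf, Option.some.injEq] at b
      refine ⟨b 0 (by omega) ▸ h2 _ fun j => (a j).1, fun t ht => ?_⟩
      rw [← b t ht.le, ← b (t + 1) ht]
      exact ⟨fun c => h1 fun j => ((a j).2 t ht).1 c, fun c => h1 fun j => ((a j).2 t ht).2 c⟩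

/-- a zigzag in a power of `A` -/
def zz (i tp : A) (n t : ℕ) : Fin (n + 1) → A := fun j =>
  if j.1 = t ∨ (t % 2 = 1 ∧ (j.1 = t + 1 ∨ j.1 + 1 = t)) then (if j.1 = 0 then i else tp) else ⊥

omit [Fintype A] in
theorem Y_ne {i tp : A} (h0 : ⊥ < i) (h1 : i < tp) {k n : ℕ} (hk : k < n) (hn : n % 2 = 1) :
    Y i k ≠ Y i n := by
  classical
  have K1 : ∀ s ≤ n, ∀ t, zz i tp n s ≤ zz i tp n t →
      s = t ∨ (t % 2 = 1 ∧ (s = t + 1 ∨ s + 1 = t)) := by
    intro s hs t h
    by_contra c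
    have := h ⟨s, by omega⟩
    simp only [zz, c, true_or, if_true, if_false] at this
    split_ifs at this
    · exact h0.not_ge this
    · exact (h0.trans h1).not_ge this
  have K2 : ∀ s ≤ n, (∀ j, zz i tp n s j ≤ i) → s = 0 := by
    intro s hs h
    by_contra c
    have := h ⟨s, by omega⟩
    simp only [zz, c, true_or, if_true, if_false] at this
    exact h1.not_ge this
  have K3 : ∀ t < n, zz i tp n t ≠ zz i tp n n := fun t ht h => by
    have := K1 n le_rfl t h.ge
    omega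
  let f : (Fin (n + 1) → A) → Option A := fun x =>
    if x = zz i tp n n then some ⊥ else if ∃ t < n, x = zz i tp n t then some i else none
  have hdom : ∀ x a, f x = some a → ∃ t ≤ n, x = zz i tp n t := by
    intro x a h
    simp only [f] at h
    split_ifs at h with b c
    · exact ⟨n, le_rfl, b⟩
    · exact c.imp fun t h => ⟨h.1.le, h.2⟩
  intro e
  have a1 : (⟨n, f⟩ : PF A) ∈ Y i k := by
    intro z w b1 b2
    have c : ∀ t ≤ k, ∃ s ≤ t, z t = zz i tp n s := by
      intro t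
      induction t with
      | zero =>
        intro ht
        obtain ⟨s, s1, s2⟩ := hdom _ _ (b2 0 ht)
        exact ⟨s, (K2 s s1 fun j => s2 ▸ (b1 j).1).le, s2⟩
      | succ t ih =>
        intro ht
        obtain ⟨s, s1, s2⟩ := ih (by omega)
        obtain ⟨s', s3, s4⟩ := hdom _ _ (b2 _ ht)
        refine ⟨s', ?_, s4⟩
        rcases Nat.mod_two_eq_zero_or_one t with d | d
        · have := K1 s (by omega) s' (s2 ▸ s4 ▸ fun j => ((b1 j).2 t ht).1 d)
          omega
        · have := K1 s' s3 s (s2 ▸ s4 ▸ fun j => ((b1 j).2 t ht).2 d)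
          omega
    have d : ∀ t ≤ k, w t = i := by
      intro t ht
      obtain ⟨s, s1, s2⟩ := c t ht
      have := b2 t ht
      simp only [f, s2, K3 s (by omega), if_false] at this
      rw [if_pos ⟨s, by omega, rfl⟩] at this
      exact (Option.some.inj this).symm
    refine ⟨(d 0 (by omega)).le, fun t ht => ?_⟩
    rw [d t ht.le, d (t + 1) ht]
    exact ⟨fun _ => le_rfl, fun _ => le_rfl⟩
  rw [e] at a1
  have := a1 (zz i tp n) (fun t => if t = n then ⊥ else i) (fun j => ?_) (fun t ht => ?_)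
  · have := (this.2 (n - 1) (by omega)).1 (by omega)
    beta_reduce at this
    rw [if_neg (by omega), if_pos (by omega)] at this
    exact h0.not_ge this
  · refine ⟨?_, fun t _ => ⟨fun a => ?_, fun a => ?_⟩⟩
    · simp only [zz]
      by_cases b : j.1 = 0
      · rw [if_pos (Or.inl b), if_pos b]
      · rw [if_neg (by omega)]; exact bot_le
    · simp only [zz]
      by_cases b : j.1 = t
      · rw [if_pos (Or.inl b), if_pos (Or.inr ⟨by omega, Or.inr (by omega)⟩)]
      · rw [if_neg (by omega)]; exact bot_le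
    · simp only [zz]
      by_cases b : j.1 = t + 1
      · rw [if_pos (Or.inl b), if_pos (Or.inr ⟨a, Or.inl b⟩)]
      · rw [if_neg (by omega)]; exact bot_le
  · by_cases a : t = n
    · simp [f, a]
    · simp only [f, a, K3 t (by omega), if_false]
      rw [if_pos ⟨t, by omega, rfl⟩]

end Pool.Agent.P.MP_0340c4_al
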